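import Mathlib

/-!
# The products `B_k` of Benkoski and Erdos need not be primitive pseudoperfect
-/

namespace Pool.Agent.Results.MP_64ebd5_nt.NotPrimitive

open Finset

/-- the `k`-th prime, `p 1 = 2` -/
noncomputable def p (k : ℕ) : ℕ := Nat.nth Nat.Prime (k - 1)

/-- `p_k p_{k+1} ⋯ p_j` -/
noncomputable def pr (k j : ℕ) : ℕ := ∏ l ∈ Icc k j, p l

/-- the least `j ≥ k` with `σ (p_k ⋯ p_j) ≥ 2 p_k ⋯ p_j` -/
noncomputable def f (k : ℕ) : ℕ := sInf {j | k ≤ j ∧ 2 * pr k j ≤ ∑ d ∈ (pr k j).divisors, d}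

/-- `A_k`, the product of the primes from `p_k` to `p_{f(k)}` -/
noncomputable def A (k : ℕ) : ℕ := ∏ l ∈ Icc k (f k), p l

/-- `B_k = (A_k / p_{f(k)}) p_{f(k)+1} p_{f(k)+2}` -/
noncomputable def B (k : ℕ) : ℕ := A k / p (f k) * p (f k + 1) * p (f k + 2)

/-- `n` is primitive pseudoperfect: it is the sum of some of its proper divisors, and none of its
proper divisors has this property. -/
def PrimitivePseudoperfect (n : ℕ) : Prop :=
  n.Pseudoperfect ∧ ∀ d, d ∣ n → d < n → ¬ d.Pseudoperfect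

theorem p_prime (k : ℕ) : (p k).Prime := Nat.prime_nth_prime _

theorem p_inj {a b : ℕ} (ha : 1 ≤ a) (hb : 1 ≤ b) (h : p a = p b) : a = b := by
  have := Nat.nth_injective Nat.infinite_setOfPred_prime h
  omega

theorem sigma_pr (S : Finset ℕ) (hS : ∀ l ∈ S, 1 ≤ l) :
    ∑ d ∈ (∏ l ∈ S, p l).divisors, d = ∏ l ∈ S, (p l + 1) := by
  induction S using Finset.induction with
  | empty => simp
  | insert a S ha ih =>
    rw [prod_insert ha, prod_insert ha]
    have hc : Nat.Coprime (p a) (∏ l ∈ S, p l) := by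
      apply Nat.Coprime.prod_right
      intro i hi
      rw [Nat.coprime_primes (p_prime a) (p_prime i)]
      intro h
      have := p_inj (hS a (mem_insert_self _ _)) (hS i (mem_insert_of_mem hi)) h
      exact ha (this ▸ hi)
    rw [hc.sum_divisors_mul, ih (fun l hl => hS l (mem_insert_of_mem hl)), (p_prime a).sum_divisors]

theorem nth_of_count {i q : ℕ} (hq : q.Prime) (hc : Nat.count Nat.Prime q = i) :
    Nat.nth Nat.Prime i = q := by
  rw [← hc]; exact Nat.nth_count hq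

/-- The sum of the proper divisors outside `T`. -/
theorem pseudoperfect_of {n : ℕ} (hn : 0 < n) (T : Finset ℕ) (hT : ∀ d ∈ T, d ∣ n ∧ d < n)
    (h : ∑ d ∈ n.divisors, d = 2 * n + ∑ d ∈ T, d) : n.Pseudoperfect := by
  refine ⟨hn, n.properDivisors \ T, sdiff_subset, ?_⟩
  have hTs : T ⊆ n.properDivisors := fun d hd => Nat.mem_properDivisors.2 (hT d hd)
  have h1 := Finset.sum_sdiff (f := fun d => d) hTs
  have h2 := Nat.sum_divisors_eq_sum_properDivisors_add_self (n := n)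
  omega

theorem p1 : p 1 = 2 := nth_of_count (by norm_num) (by norm_num [Nat.count_succ])
theorem p2 : p 2 = 3 := nth_of_count (by norm_num) (by norm_num [Nat.count_succ])
theorem p3 : p 3 = 5 := nth_of_count (by norm_num) (by norm_num [Nat.count_succ])
theorem p4 : p 4 = 7 := nth_of_count (by norm_num) (by norm_num [Nat.count_succ])
theorem p5 : p 5 = 11 := nth_of_count (by norm_num) (by norm_num [Nat.count_succ])
theorem p6 : p 6 = 13 := nth_of_count (by norm_num) (by norm_num [Nat.count_succ])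
theorem p7 : p 7 = 17 := nth_of_count (by norm_num) (by norm_num [Nat.count_succ])
theorem p8 : p 8 = 19 := nth_of_count (by norm_num) (by norm_num [Nat.count_succ])
theorem p9 : p 9 = 23 := nth_of_count (by norm_num) (by norm_num [Nat.count_succ])
theorem p10 : p 10 = 29 := nth_of_count (by norm_num) (by norm_num [Nat.count_succ])
theorem p11 : p 11 = 31 := nth_of_count (by norm_num) (by norm_num [Nat.count_succ])
theorem p12 : p 12 = 37 := nth_of_count (by norm_num) (by norm_num [Nat.count_succ])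
theorem p13 : p 13 = 41 := nth_of_count (by norm_num) (by norm_num [Nat.count_succ])
theorem p14 : p 14 = 43 := nth_of_count (by norm_num) (by norm_num [Nat.count_succ])
theorem p15 : p 15 = 47 := nth_of_count (by norm_num) (by norm_num [Nat.count_succ])
theorem p16 : p 16 = 53 := nth_of_count (by norm_num) (by norm_num [Nat.count_succ])
theorem p17 : p 17 = 59 := nth_of_count (by norm_num) (by norm_num [Nat.count_succ])
theorem p18 : p 18 = 61 := nth_of_count (by norm_num) (by norm_num [Nat.count_succ])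
theorem p19 : p 19 = 67 := nth_of_count (by norm_num) (by norm_num [Nat.count_succ])
theorem p20 : p 20 = 71 := nth_of_count (by norm_num) (by norm_num [Nat.count_succ])
theorem p21 : p 21 = 73 := nth_of_count (by norm_num) (by norm_num [Nat.count_succ])
theorem p22 : p 22 = 79 := nth_of_count (by norm_num) (by norm_num [Nat.count_succ])
theorem p23 : p 23 = 83 := nth_of_count (by norm_num) (by norm_num [Nat.count_succ])
theorem p24 : p 24 = 89 := nth_of_count (by norm_num) (by norm_num [Nat.count_succ])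

theorem v2_2 : (∏ l ∈ Icc 2 2, p l = 3) ∧ ∏ l ∈ Icc 2 2, (p l + 1) = 4 := by
  rw [Icc_self, prod_singleton, prod_singleton, p2]; norm_num
theorem v2_3 : (∏ l ∈ Icc 2 3, p l = 15) ∧ ∏ l ∈ Icc 2 3, (p l + 1) = 24 := by
  rw [prod_Icc_succ_top (by norm_num : 2 ≤ 2 + 1), prod_Icc_succ_top (by norm_num : 2 ≤ 2 + 1),
    v2_2.1, v2_2.2, p3]; norm_num
theorem v2_4 : (∏ l ∈ Icc 2 4, p l = 105) ∧ ∏ l ∈ Icc 2 4, (p l + 1) = 192 := by
  rw [prod_Icc_succ_top (by norm_num : 2 ≤ 3 + 1), prod_Icc_succ_top (by norm_num : 2 ≤ 3 + 1),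
    v2_3.1, v2_3.2, p4]; norm_num
theorem v2_5 : (∏ l ∈ Icc 2 5, p l = 1155) ∧ ∏ l ∈ Icc 2 5, (p l + 1) = 2304 := by
  rw [prod_Icc_succ_top (by norm_num : 2 ≤ 4 + 1), prod_Icc_succ_top (by norm_num : 2 ≤ 4 + 1),
    v2_4.1, v2_4.2, p5]; norm_num
theorem v2_6 : (∏ l ∈ Icc 2 6, p l = 15015) ∧ ∏ l ∈ Icc 2 6, (p l + 1) = 32256 := by
  rw [prod_Icc_succ_top (by norm_num : 2 ≤ 5 + 1), prod_Icc_succ_top (by norm_num : 2 ≤ 5 + 1),
    v2_5.1, v2_5.2, p6]; norm_num

theorem f2 : f 2 = 6 := by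
  have hs : ∀ j, ∑ d ∈ (pr 2 j).divisors, d = ∏ l ∈ Icc 2 j, (p l + 1) := fun j =>
    sigma_pr _ (fun l hl => by have := (mem_Icc.1 hl).1; omega)
  unfold f
  apply le_antisymm
  · apply Nat.sInf_le
    refine ⟨by norm_num, ?_⟩
    rw [hs, pr, v2_6.1, v2_6.2]
    norm_num
  · apply le_csInf
    · refine ⟨6, by norm_num, ?_⟩
      rw [hs, pr, v2_6.1, v2_6.2]
      norm_num
    · rintro j ⟨h1, h2⟩
      by_contra h3
      rw [hs, pr] at h2
      have h4 : j < 6 := by omega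
      interval_cases j
      · rw [v2_2.1, v2_2.2] at h2; norm_num at h2
      · rw [v2_3.1, v2_3.2] at h2; norm_num at h2
      · rw [v2_4.1, v2_4.2] at h2; norm_num at h2
      · rw [v2_5.1, v2_5.2] at h2; norm_num at h2

theorem B2 : B 2 = 373065 := by
  unfold B A
  rw [f2, v2_6.1, p6, p7, p8]

theorem D2 : (19635 : ℕ).Pseudoperfect := by
  apply pseudoperfect_of (by norm_num) {1785, 385, 21, 11}
  · intro d hd
    simp only [mem_insert, mem_singleton] at hd
    rcases hd with rfl | rfl | rfl | rfl <;> norm_num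
  · have h0 : 19635 = ∏ l ∈ insert 7 (Icc 2 5), p l := by
      rw [prod_insert (by simp), v2_5.1, p7]
      norm_num
    have h1 := sigma_pr (insert 7 (Icc 2 5)) (fun l hl => by
      rcases mem_insert.1 hl with h | h
      · omega
      · have := (mem_Icc.1 h).1; omega)
    rw [← h0, prod_insert (by simp), v2_5.2, p7] at h1
    rw [h1]
    decide +kernel

theorem not2 : ¬ PrimitivePseudoperfect (B 2) := by
  rw [B2]
  intro h
  exact h.2 19635 (by norm_num) (by norm_num) D2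

theorem v4_4 : (∏ l ∈ Icc 4 4, p l = 7) ∧ ∏ l ∈ Icc 4 4, (p l + 1) = 8 := by
  rw [Icc_self, prod_singleton, prod_singleton, p4]; norm_num
theorem v4_5 : (∏ l ∈ Icc 4 5, p l = 77) ∧ ∏ l ∈ Icc 4 5, (p l + 1) = 96 := by
  rw [prod_Icc_succ_top (by norm_num : 4 ≤ 4 + 1), prod_Icc_succ_top (by norm_num : 4 ≤ 4 + 1),
    v4_4.1, v4_4.2, p5]; norm_num
theorem v4_6 : (∏ l ∈ Icc 4 6, p l = 1001) ∧ ∏ l ∈ Icc 4 6, (p l + 1) = 1344 := by
  rw [prod_Icc_succ_top (by norm_num : 4 ≤ 5 + 1), prod_Icc_succ_top (by norm_num : 4 ≤ 5 + 1),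
    v4_5.1, v4_5.2, p6]; norm_num
theorem v4_7 : (∏ l ∈ Icc 4 7, p l = 17017) ∧ ∏ l ∈ Icc 4 7, (p l + 1) = 24192 := by
  rw [prod_Icc_succ_top (by norm_num : 4 ≤ 6 + 1), prod_Icc_succ_top (by norm_num : 4 ≤ 6 + 1),
    v4_6.1, v4_6.2, p7]; norm_num
theorem v4_8 : (∏ l ∈ Icc 4 8, p l = 323323) ∧ ∏ l ∈ Icc 4 8, (p l + 1) = 483840 := by
  rw [prod_Icc_succ_top (by norm_num : 4 ≤ 7 + 1), prod_Icc_succ_top (by norm_num : 4 ≤ 7 + 1),
    v4_7.1, v4_7.2, p8]; norm_num
theorem v4_9 : (∏ l ∈ Icc 4 9, p l = 7436429) ∧ ∏ l ∈ Icc 4 9, (p l + 1) = 11612160 := by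
  rw [prod_Icc_succ_top (by norm_num : 4 ≤ 8 + 1), prod_Icc_succ_top (by norm_num : 4 ≤ 8 + 1),
    v4_8.1, v4_8.2, p9]; norm_num
theorem v4_10 : (∏ l ∈ Icc 4 10, p l = 215656441) ∧ ∏ l ∈ Icc 4 10, (p l + 1) = 348364800 := by
  rw [prod_Icc_succ_top (by norm_num : 4 ≤ 9 + 1), prod_Icc_succ_top (by norm_num : 4 ≤ 9 + 1),
    v4_9.1, v4_9.2, p10]; norm_num
theorem v4_11 : (∏ l ∈ Icc 4 11, p l = 6685349671) ∧ ∏ l ∈ Icc 4 11, (p l + 1) = 11147673600 := by
  rw [prod_Icc_succ_top (by norm_num : 4 ≤ 10 + 1), prod_Icc_succ_top (by norm_num : 4 ≤ 10 + 1),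
    v4_10.1, v4_10.2, p11]; norm_num
theorem v4_12 : (∏ l ∈ Icc 4 12, p l = 247357937827) ∧ ∏ l ∈ Icc 4 12, (p l + 1) = 423611596800 := by
  rw [prod_Icc_succ_top (by norm_num : 4 ≤ 11 + 1), prod_Icc_succ_top (by norm_num : 4 ≤ 11 + 1),
    v4_11.1, v4_11.2, p12]; norm_num
theorem v4_13 : (∏ l ∈ Icc 4 13, p l = 10141675450907) ∧ ∏ l ∈ Icc 4 13, (p l + 1) = 17791687065600 := by
  rw [prod_Icc_succ_top (by norm_num : 4 ≤ 12 + 1), prod_Icc_succ_top (by norm_num : 4 ≤ 12 + 1),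
    v4_12.1, v4_12.2, p13]; norm_num
theorem v4_14 : (∏ l ∈ Icc 4 14, p l = 436092044389001) ∧ ∏ l ∈ Icc 4 14, (p l + 1) = 782834230886400 := by
  rw [prod_Icc_succ_top (by norm_num : 4 ≤ 13 + 1), prod_Icc_succ_top (by norm_num : 4 ≤ 13 + 1),
    v4_13.1, v4_13.2, p14]; norm_num
theorem v4_15 : (∏ l ∈ Icc 4 15, p l = 20496326086283047) ∧ ∏ l ∈ Icc 4 15, (p l + 1) = 37576043082547200 := by
  rw [prod_Icc_succ_top (by norm_num : 4 ≤ 14 + 1), prod_Icc_succ_top (by norm_num : 4 ≤ 14 + 1),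
    v4_14.1, v4_14.2, p15]; norm_num
theorem v4_16 : (∏ l ∈ Icc 4 16, p l = 1086305282573001491) ∧ ∏ l ∈ Icc 4 16, (p l + 1) = 2029106326457548800 := by
  rw [prod_Icc_succ_top (by norm_num : 4 ≤ 15 + 1), prod_Icc_succ_top (by norm_num : 4 ≤ 15 + 1),
    v4_15.1, v4_15.2, p16]; norm_num
theorem v4_17 : (∏ l ∈ Icc 4 17, p l = 64092011671807087969) ∧ ∏ l ∈ Icc 4 17, (p l + 1) = 121746379587452928000 := by
  rw [prod_Icc_succ_top (by norm_num : 4 ≤ 16 + 1), prod_Icc_succ_top (by norm_num : 4 ≤ 16 + 1),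
    v4_16.1, v4_16.2, p17]; norm_num
theorem v4_18 : (∏ l ∈ Icc 4 18, p l = 3909612711980232366109) ∧ ∏ l ∈ Icc 4 18, (p l + 1) = 7548275534422081536000 := by
  rw [prod_Icc_succ_top (by norm_num : 4 ≤ 17 + 1), prod_Icc_succ_top (by norm_num : 4 ≤ 17 + 1),
    v4_17.1, v4_17.2, p18]; norm_num
theorem v4_19 : (∏ l ∈ Icc 4 19, p l = 261944051702675568529303) ∧ ∏ l ∈ Icc 4 19, (p l + 1) = 513282736340701544448000 := by
  rw [prod_Icc_succ_top (by norm_num : 4 ≤ 18 + 1), prod_Icc_succ_top (by norm_num : 4 ≤ 18 + 1),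
    v4_18.1, v4_18.2, p19]; norm_num
theorem v4_20 : (∏ l ∈ Icc 4 20, p l = 18598027670889965365580513) ∧ ∏ l ∈ Icc 4 20, (p l + 1) = 36956357016530511200256000 := by
  rw [prod_Icc_succ_top (by norm_num : 4 ≤ 19 + 1), prod_Icc_succ_top (by norm_num : 4 ≤ 19 + 1),
    v4_19.1, v4_19.2, p20]; norm_num
theorem v4_21 : (∏ l ∈ Icc 4 21, p l = 1357656019974967471687377449) ∧ ∏ l ∈ Icc 4 21, (p l + 1) = 2734770419223257828818944000 := by
  rw [prod_Icc_succ_top (by norm_num : 4 ≤ 20 + 1), prod_Icc_succ_top (by norm_num : 4 ≤ 20 + 1),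
    v4_20.1, v4_20.2, p21]; norm_num

theorem f4 : f 4 = 21 := by
  have hs : ∀ j, ∑ d ∈ (pr 4 j).divisors, d = ∏ l ∈ Icc 4 j, (p l + 1) := fun j =>
    sigma_pr _ (fun l hl => by have := (mem_Icc.1 hl).1; omega)
  unfold f
  apply le_antisymm
  · apply Nat.sInf_le
    refine ⟨by norm_num, ?_⟩
    rw [hs, pr, v4_21.1, v4_21.2]
    norm_num
  · apply le_csInf
    · refine ⟨21, by norm_num, ?_⟩
      rw [hs, pr, v4_21.1, v4_21.2]
      norm_num
    · rintro j ⟨h1, h2⟩
      by_contra h3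
      rw [hs, pr] at h2
      have h4 : j < 21 := by omega
      interval_cases j
      · rw [v4_4.1, v4_4.2] at h2; norm_num at h2
      · rw [v4_5.1, v4_5.2] at h2; norm_num at h2
      · rw [v4_6.1, v4_6.2] at h2; norm_num at h2
      · rw [v4_7.1, v4_7.2] at h2; norm_num at h2
      · rw [v4_8.1, v4_8.2] at h2; norm_num at h2
      · rw [v4_9.1, v4_9.2] at h2; norm_num at h2
      · rw [v4_10.1, v4_10.2] at h2; norm_num at h2
      · rw [v4_11.1, v4_11.2] at h2; norm_num at h2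
      · rw [v4_12.1, v4_12.2] at h2; norm_num at h2
      · rw [v4_13.1, v4_13.2] at h2; norm_num at h2
      · rw [v4_14.1, v4_14.2] at h2; norm_num at h2
      · rw [v4_15.1, v4_15.2] at h2; norm_num at h2
      · rw [v4_16.1, v4_16.2] at h2; norm_num at h2
      · rw [v4_17.1, v4_17.2] at h2; norm_num at h2
      · rw [v4_18.1, v4_18.2] at h2; norm_num at h2
      · rw [v4_19.1, v4_19.2] at h2; norm_num at h2
      · rw [v4_20.1, v4_20.2] at h2; norm_num at h2

theorem B4 : B 4 = 121947267438025502902111423741 := by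
  unfold B A
  rw [f4, v4_21.1, p21, p22, p23]

theorem D4 : (1469244186000307263880860527 : ℕ).Pseudoperfect := by
  apply pseudoperfect_of (by norm_num) {16145540505497882020668797, 1852766943253855313847239, 21863427419239405126127, 18441487223313145297, 4168103624399771, 64578020819, 3548509, 2387}
  · intro d hd
    simp only [mem_insert, mem_singleton] at hd
    rcases hd with rfl | rfl | rfl | rfl | rfl | rfl | rfl | rfl <;> norm_num
  · have h0 : 1469244186000307263880860527 = ∏ l ∈ insert 22 (Icc 4 20), p l := by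
      rw [prod_insert (by simp), v4_20.1, p22]
      norm_num
    have h1 := sigma_pr (insert 22 (Icc 4 20)) (fun l hl => by
      rcases mem_insert.1 hl with h | h
      · omega
      · have := (mem_Icc.1 h).1; omega)
    rw [← h0, prod_insert (by simp), v4_20.2, p22] at h1
    rw [h1]
    decide +kernel

theorem not4 : ¬ PrimitivePseudoperfect (B 4) := by
  rw [B4]
  intro h
  exact h.2 1469244186000307263880860527 (by norm_num) (by norm_num) D4

/-- **The assertion of the question is false**: `B_2 = 3 · 5 · 7 · 11 · 17 · 19` has the pseudoperfect proper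
divisor `19635 = 3 · 5 · 7 · 11 · 17`, and `B_4` has the pseudoperfect proper divisor `B_4 / 83`. -/
theorem result :
    ¬ (∀ k : ℕ, 2 ≤ k → PrimitivePseudoperfect (A k) ∧ PrimitivePseudoperfect (B k)) ∧
      ¬ PrimitivePseudoperfect (B 2) ∧ ¬ PrimitivePseudoperfect (B 4) ∧
      B 2 = 373065 ∧ 19635 ∣ B 2 ∧ (19635 : ℕ).Pseudoperfect :=
  ⟨fun h => not2 (h 2 le_rfl).2, not2, not4, B2, by rw [B2]; norm_num, D2⟩

end Pool.Agent.Results.MP_64ebd5_nt.NotPrimitive
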